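import Pool.Agent.W223.HZ.Stms

set_option autoImplicit false

namespace Pool.Agent.W654.HZ.CLT

open Pool.Agent.W223.HZ

lemma key_id (a b c d : ℤ) : disc4 a b c d * a ^ 2 =
    (a ^ 2 * d - 3 * a * b * c + 2 * b ^ 3) ^ 2 + 4 * (a * c - b ^ 2) ^ 3 := by
  unfold disc4
  ring

lemma card_Icc_le (x : ℝ) (hx : 0 ≤ x) :
    ((Finset.Icc (-⌊x⌋) ⌊x⌋).card : ℝ) ≤ 2 * x + 1 := by
  rw [Int.card_Icc]
  have h0 : 0 ≤ ⌊x⌋ := Int.floor_nonneg.2 hx
  have h1 : (((⌊x⌋ + 1 - -⌊x⌋).toNat : ℕ) : ℤ) = 2 * ⌊x⌋ + 1 := by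
    rw [Int.toNat_of_nonneg (by omega)]
    ring
  have h2 : (((⌊x⌋ + 1 - -⌊x⌋).toNat : ℕ) : ℝ) = 2 * (⌊x⌋ : ℝ) + 1 := by
    exact_mod_cast congrArg (fun z : ℤ => (z : ℝ)) h1
  rw [h2]
  have h3 := Int.floor_le x
  linarith

lemma mem_Icc_of (x : ℝ) (a : ℤ) (h : |(a : ℝ)| ≤ x) : a ∈ Finset.Icc (-⌊x⌋) ⌊x⌋ := by
  rw [Finset.mem_Icc]
  rw [abs_le] at h
  constructor
  · have : -a ≤ ⌊x⌋ := Int.le_floor.2 (by push_cast; linarith)
    omega
  · exact Int.le_floor.2 h.2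

/-- sizes of the covariants -/
lemma sizes (R T a b c d : ℝ) (hT : 0 < T) (hR : 0 ≤ R)
    (ha : |a| * T ^ 3 ≤ 200 * R) (hb : |b| * T ≤ 200 * R) (hc : |c| ≤ 200 * (R * T))
    (hd : |d| ≤ 200 * (R * T ^ 3)) :
    |a| ≤ 200 * R / T ^ 3 ∧ |a * c - b ^ 2| ≤ 80000 * R ^ 2 / T ^ 2 ∧
      |a ^ 2 * d - 3 * a * b * c + 2 * b ^ 3| ≤ 48000000 * R ^ 3 / T ^ 3 := by
  have ha' : |a| ≤ 200 * R / T ^ 3 := by rwa [le_div_iff₀ (by positivity)]
  have hb' : |b| ≤ 200 * R / T := by rwa [le_div_iff₀ hT]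
  refine ⟨ha', ?_, ?_⟩
  · have h1 : |a * c| ≤ 200 * R / T ^ 3 * (200 * (R * T)) := by
      rw [abs_mul]
      exact mul_le_mul ha' hc (abs_nonneg _) (by positivity)
    have h2 : |b ^ 2| ≤ (200 * R / T) ^ 2 := by
      rw [abs_pow]
      exact pow_le_pow_left₀ (abs_nonneg _) hb' 2
    have h3 : 200 * R / T ^ 3 * (200 * (R * T)) = 40000 * R ^ 2 / T ^ 2 := by
      field_simp
      ring
    have h4 : (200 * R / T) ^ 2 = 40000 * R ^ 2 / T ^ 2 := by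
      rw [div_pow]
      ring
    have h5 : |a * c - b ^ 2| ≤ |a * c| + |b ^ 2| := abs_sub _ _
    have h6 : 80000 * R ^ 2 / T ^ 2 = 40000 * R ^ 2 / T ^ 2 + 40000 * R ^ 2 / T ^ 2 := by ring
    rw [h6]
    linarith
  · have h1 : |a ^ 2 * d| ≤ (200 * R / T ^ 3) ^ 2 * (200 * (R * T ^ 3)) := by
      rw [abs_mul, abs_pow]
      exact mul_le_mul (pow_le_pow_left₀ (abs_nonneg _) ha' 2) hd (abs_nonneg _) (by positivity)
    have h2 : |3 * a * b * c| ≤ 3 * (200 * R / T ^ 3) * (200 * R / T) * (200 * (R * T)) := by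
      rw [abs_mul, abs_mul, abs_mul]
      have : |(3 : ℝ)| = 3 := by norm_num
      rw [this]
      refine mul_le_mul (mul_le_mul (mul_le_mul_of_nonneg_left ha' (by norm_num)) hb'
        (abs_nonneg _) (by positivity)) hc (abs_nonneg _) (by positivity)
    have h3 : |2 * b ^ 3| ≤ 2 * (200 * R / T) ^ 3 := by
      rw [abs_mul, abs_pow]
      have : |(2 : ℝ)| = 2 := by norm_num
      rw [this]
      exact mul_le_mul_of_nonneg_left (pow_le_pow_left₀ (abs_nonneg _) hb' 3) (by norm_num)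
    have e1 : (200 * R / T ^ 3) ^ 2 * (200 * (R * T ^ 3)) = 8000000 * R ^ 3 / T ^ 3 := by
      field_simp
      ring
    have e2 : 3 * (200 * R / T ^ 3) * (200 * R / T) * (200 * (R * T)) =
        24000000 * R ^ 3 / T ^ 3 := by
      field_simp
      ring
    have e3 : 2 * (200 * R / T) ^ 3 = 16000000 * R ^ 3 / T ^ 3 := by
      rw [div_pow]
      ring
    have h5 : |a ^ 2 * d - 3 * a * b * c + 2 * b ^ 3| ≤
        |a ^ 2 * d| + |3 * a * b * c| + |2 * b ^ 3| :=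
      (abs_add_le _ _).trans (by
        have := abs_sub (a ^ 2 * d) (3 * a * b * c)
        linarith)
    have h6 : 48000000 * R ^ 3 / T ^ 3 = 8000000 * R ^ 3 / T ^ 3 + 24000000 * R ^ 3 / T ^ 3 +
        16000000 * R ^ 3 / T ^ 3 := by ring
    rw [h6]
    linarith

/-- the arithmetic of the bound -/
lemma bound (R T : ℝ) (hR : 1 ≤ R) (hT : 0 < T) (hTR : R ^ ((26 : ℝ) / 100) ≤ T)
    (h200 : T ^ 3 ≤ 200 * R) :
    (2 * (200 * R / T ^ 3) + 1) * ((2 * (80000 * R ^ 2 / T ^ 2) + 1) *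
      (2 * (48000000 * R ^ 3 / T ^ 3) + 1)) ≤ 10 ^ 16 * R ^ ((392 : ℝ) / 100) := by
  have hR0 : 0 < R := by linarith
  have h1 : 1 ≤ 200 * R / T ^ 3 := by
    rw [le_div_iff₀ (by positivity)]
    linarith
  have hR3 : R ≤ R ^ 3 := by
    nlinarith [mul_nonneg (sub_nonneg.2 hR) hR0.le, mul_pos hR0 hR0]
  have h3 : 1 ≤ 200 * (R ^ 3 / T ^ 3) := by
    rw [← mul_div_assoc, le_div_iff₀ (by positivity)]
    linarith
  have hT6 : T ≤ 6 * R := by
    by_contra h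
    push Not at h
    have h4 : (6 * R) ^ 3 < T ^ 3 := pow_lt_pow_left₀ h (by positivity) (by norm_num)
    have h5 : (6 * R) ^ 3 = 216 * R ^ 3 := by ring
    nlinarith
  have h2 : 1 ≤ 36 * (R ^ 2 / T ^ 2) := by
    rw [← mul_div_assoc, le_div_iff₀ (by positivity)]
    nlinarith
  have e1 : 2 * (200 * R / T ^ 3) + 1 ≤ 600 * (R / T ^ 3) := by
    have : 200 * R / T ^ 3 = 200 * (R / T ^ 3) := by ring
    rw [this] at h1 ⊢
    linarith
  have e2 : 2 * (80000 * R ^ 2 / T ^ 2) + 1 ≤ 160036 * (R ^ 2 / T ^ 2) := by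
    have : 80000 * R ^ 2 / T ^ 2 = 80000 * (R ^ 2 / T ^ 2) := by ring
    rw [this]
    linarith
  have e3 : 2 * (48000000 * R ^ 3 / T ^ 3) + 1 ≤ 96000200 * (R ^ 3 / T ^ 3) := by
    have : 48000000 * R ^ 3 / T ^ 3 = 48000000 * (R ^ 3 / T ^ 3) := by ring
    rw [this]
    linarith
  have hT8 : R ^ ((208 : ℝ) / 100) ≤ T ^ 8 := by
    have h4 : (R ^ ((26 : ℝ) / 100)) ^ 8 ≤ T ^ 8 :=
      pow_le_pow_left₀ (Real.rpow_nonneg hR0.le _) hTR 8
    rw [← Real.rpow_natCast, ← Real.rpow_mul hR0.le] at h4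
    norm_num at h4 ⊢
    exact h4
  have hfin : R ^ 6 / T ^ 8 ≤ R ^ ((392 : ℝ) / 100) := by
    rw [div_le_iff₀ (by positivity)]
    have h5 : R ^ 6 = R ^ ((392 : ℝ) / 100) * R ^ ((208 : ℝ) / 100) := by
      rw [← Real.rpow_add hR0, ← Real.rpow_natCast]
      norm_num
    rw [h5]
    exact mul_le_mul_of_nonneg_left hT8 (Real.rpow_nonneg hR0.le _)
  calc (2 * (200 * R / T ^ 3) + 1) * ((2 * (80000 * R ^ 2 / T ^ 2) + 1) *
      (2 * (48000000 * R ^ 3 / T ^ 3) + 1)) ≤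
      (600 * (R / T ^ 3)) * ((160036 * (R ^ 2 / T ^ 2)) * (96000200 * (R ^ 3 / T ^ 3))) := by
        refine mul_le_mul e1 (mul_le_mul e2 e3 (by positivity) (by positivity)) (by positivity)
          (by positivity)
    _ = 9218092800 * 1000163 / 1000163 * (600 * 160036 * 96000200 / 9218092800) *
        (R ^ 6 / T ^ 8) := by
        field_simp
    _ ≤ 10 ^ 16 * (R ^ 6 / T ^ 8) := by
        refine mul_le_mul_of_nonneg_right ?_ (by positivity)
        norm_num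
    _ ≤ 10 ^ 16 * R ^ ((392 : ℝ) / 100) := mul_le_mul_of_nonneg_left hfin (by norm_num)

theorem t : StmtCLT := by
  refine ⟨10 ^ 16, by norm_num, ?_⟩
  intro R T hR hTR
  have hR0 : 0 < R := by linarith
  have hT : 0 < T := lt_of_lt_of_le (Real.rpow_pos_of_pos hR0 _) hTR
  set 𝒮 : Set ℤ := {k : ℤ | ∃ a b c d : ℤ, |(a : ℝ)| * T ^ 3 ≤ 200 * R ∧ |(b : ℝ)| * T ≤ 200 * R ∧
    |(c : ℝ)| ≤ 200 * (R * T) ∧ |(d : ℝ)| ≤ 200 * (R * T ^ 3) ∧ a ≠ 0 ∧
    disc4 a b c d = 4 * k} with h𝒮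
  by_cases h200 : T ^ 3 ≤ 200 * R
  · set F : Finset (ℤ × ℤ × ℤ) := (Finset.Icc (-⌊200 * R / T ^ 3⌋) ⌊200 * R / T ^ 3⌋) ×ˢ
      ((Finset.Icc (-⌊80000 * R ^ 2 / T ^ 2⌋) ⌊80000 * R ^ 2 / T ^ 2⌋) ×ˢ
        (Finset.Icc (-⌊48000000 * R ^ 3 / T ^ 3⌋) ⌊48000000 * R ^ 3 / T ^ 3⌋)) with hF
    have hsub : 𝒮 ⊆ ((F.image (fun x : ℤ × ℤ × ℤ =>
        (x.2.2 ^ 2 + 4 * x.2.1 ^ 3) / (4 * x.1 ^ 2)) : Finset ℤ) : Set ℤ) := by
      rintro k ⟨a, b, c, d, ha, hb, hc, hd, ha0, hk⟩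
      rw [Finset.mem_coe, Finset.mem_image]
      refine ⟨(a, a * c - b ^ 2, a ^ 2 * d - 3 * a * b * c + 2 * b ^ 3), ?_, ?_⟩
      · obtain ⟨s1, s2, s3⟩ := sizes R T a b c d hT hR0.le ha hb hc hd
        rw [hF, Finset.mem_product, Finset.mem_product]
        refine ⟨mem_Icc_of _ _ s1, mem_Icc_of _ _ ?_, mem_Icc_of _ _ ?_⟩
        · push_cast
          exact s2
        · push_cast
          exact s3
      · simp only
        rw [← key_id, hk]
        have h4 : 4 * k * a ^ 2 = k * (4 * a ^ 2) := by ring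
        rw [h4]
        exact Int.mul_ediv_cancel _ (by positivity)
    refine ⟨(Finset.finite_toSet _).subset hsub, ?_⟩
    have h1 : 𝒮.ncard ≤ F.card := by
      refine (Set.ncard_le_ncard hsub (Finset.finite_toSet _)).trans ?_
      rw [Set.ncard_coe_finset]
      exact Finset.card_image_le
    have h2 : (F.card : ℝ) ≤ (2 * (200 * R / T ^ 3) + 1) * ((2 * (80000 * R ^ 2 / T ^ 2) + 1) *
      (2 * (48000000 * R ^ 3 / T ^ 3) + 1)) := by
      rw [hF, Finset.card_product, Finset.card_product]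
      push_cast
      refine mul_le_mul (card_Icc_le _ (by positivity)) (mul_le_mul (card_Icc_le _ (by positivity))
        (card_Icc_le _ (by positivity)) (by positivity) (by positivity)) (by positivity)
        (by positivity)
    have h3 : (𝒮.ncard : ℝ) ≤ F.card := by exact_mod_cast h1
    exact h3.trans (h2.trans (bound R T hR hT hTR h200))
  · have hempty : 𝒮 = ∅ := by
      rw [Set.eq_empty_iff_forall_notMem]
      rintro k ⟨a, b, c, d, ha, hb, hc, hd, ha0, hk⟩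
      apply h200
      have h1 : (1 : ℝ) ≤ |(a : ℝ)| := by
        have : (1 : ℤ) ≤ |a| := Int.one_le_abs ha0
        exact_mod_cast this
      have h2 : 0 < T ^ 3 := by positivity
      nlinarith
    rw [hempty]
    refine ⟨Set.finite_empty, ?_⟩
    rw [Set.ncard_empty]
    push_cast
    positivity

end Pool.Agent.W654.HZ.CLT
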